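import Pool.Agent.helper26.AP.SpecQ

set_option autoImplicit false

namespace Pool.Agent.AP

open Finset NumberField Pool.Agent.helper3.FT Pool.Agent.helper47.RA Pool.Agent.T5

theorem QA1 : QA1_stmt := by
  intro p N Y r z y x h5 hb
  have hr1 : 1 ≤ r := Nat.one_le_iff_ne_zero.2 hb.r1.ne_zero
  have hy1 : 1 ≤ y := hb.y1
  have hdp : dp p (r, z, y, x) * (y : ℤ) ^ 2 = x ^ 2 - 4 * (r : ℤ) * (z : ℤ) ^ p :=
    Int.ediv_mul_cancel hb.dv
  have hrx : (r : ℤ) ∣ x := by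
    have h1 : (r : ℤ) ∣ x ^ 2 := by
      have h2 : x ^ 2 = dp p (r, z, y, x) * (y : ℤ) ^ 2 + (r : ℤ) * (4 * (z : ℤ) ^ p) := by
        rw [hdp]; ring
      rw [h2]
      exact dvd_add (Dvd.dvd.mul_right hb.rD _) (dvd_mul_right _ _)
    have h3 : Squarefree (r : ℤ) := Int.squarefree_natCast.2 hb.r1
    exact (h3.dvd_pow_iff_dvd two_ne_zero).1 h1
  have hr0 : (0 : ℝ) < r := by exact_mod_cast hr1
  have hy0 : (0 : ℝ) < y := by exact_mod_cast hy1
  have hreal : (dp p (r, z, y, x) : ℝ) * (y : ℝ) ^ 2 = (x : ℝ) ^ 2 - 4 * (r : ℝ) * (z : ℝ) ^ p := by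
    exact_mod_cast hdp
  refine ⟨hr1, hrx, hdp, ?_⟩
  constructor
  · show Y / r / 2 < (z : ℝ)
    have := hb.Y1
    simp only at this
    rw [div_div, div_lt_iff₀ (by positivity)]
    linarith
  · show (z : ℝ) ≤ Y / r
    have := hb.Y2
    simp only at this
    rw [le_div_iff₀ hr0]
    linarith
  · exact hy1
  · have := hb.co
    simpa using this
  · exact hrx
  · have := hb.dv
    simp only [num] at this
    simpa using this
  · show N / 2 * (y : ℝ) ^ 2 < 4 * (r : ℝ) * (z : ℝ) ^ p - (x : ℝ) ^ 2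
    have h1 := hb.N1
    have h2 : 0 < (y : ℝ) ^ 2 := by positivity
    nlinarith [mul_lt_mul_of_pos_right h1 h2]
  · show 4 * (r : ℝ) * (z : ℝ) ^ p - (x : ℝ) ^ 2 ≤ N * (y : ℝ) ^ 2
    have h1 := hb.N2
    have h2 : 0 < (y : ℝ) ^ 2 := by positivity
    nlinarith [mul_le_mul_of_nonneg_right h1 h2.le]

end Pool.Agent.AP
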