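import Pool.Agent.helper26.AP.SpecQ

set_option autoImplicit false

namespace Pool.Agent.AP

open Finset NumberField Pool.Agent.helper3.FT Pool.Agent.helper47.RA Pool.Agent.T5

theorem QP2 (hQP1 : QP1_stmt) : QP2_stmt := by
  intro p δ N Y h5 hδ hN hY1 hY2
  have hN0 : 0 < N := by linarith
  have hp5 : (5 : ℝ) ≤ p := by exact_mod_cast h5
  have hp0 : (0 : ℝ) < p := by linarith
  have hmono : ∀ a b : ℝ, a ≤ b → N ^ a ≤ N ^ b := fun a b h => Real.rpow_le_rpow_of_exponent_le hN h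
  have hpos : ∀ a : ℝ, 0 < N ^ a := fun a => Real.rpow_pos_of_pos hN0 a
  have h1p : 0 < 1 / (p : ℝ) := by positivity
  have h2p : 2 / (p : ℝ) ≤ 2 / 5 := by
    apply div_le_div_of_nonneg_left (by norm_num) (by norm_num) hp5
  have g1 : 1 ≤ Y := le_trans (Real.one_le_rpow hN (by linarith)) hY1
  have hY0 : 0 < Y := by linarith
  have g2 : N ^ (1 / (p : ℝ)) ≤ Y := le_trans (hmono _ _ (by linarith)) hY1
  have g3 : Y ≤ N ^ ((2 : ℝ) / 5) := le_trans hY2 (hmono _ _ (by linarith))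
  have g4 : √(Y ^ p / N) ≤ N ^ (1 / 2 - 2 * δ) := by
    rw [Real.sqrt_le_iff]
    refine ⟨(hpos _).le, ?_⟩
    have e1 : (N ^ (1 / 2 - 2 * δ)) ^ 2 = N ^ (1 - 4 * δ) := by
      rw [← Real.rpow_natCast, ← Real.rpow_mul hN0.le]
      congr 1
      push_cast
      ring
    have e2 : Y ^ p ≤ N ^ (2 - p * δ) := by
      have e3 : Y ^ p ≤ (N ^ (2 / (p : ℝ) - δ)) ^ p := pow_le_pow_left₀ hY0.le hY2 p
      have e4 : (N ^ (2 / (p : ℝ) - δ)) ^ p = N ^ (2 - p * δ) := by
        rw [← Real.rpow_natCast, ← Real.rpow_mul hN0.le]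
        congr 1
        field_simp
      rwa [e4] at e3
    have e5 : N ^ (1 - p * δ) * N = N ^ (2 - p * δ) := by
      nth_rewrite 2 [← Real.rpow_one N]
      rw [← Real.rpow_add hN0]
      congr 1
      ring
    rw [e1, div_le_iff₀ hN0]
    calc Y ^ p ≤ N ^ (2 - p * δ) := e2
      _ = N ^ (1 - p * δ) * N := e5.symm
      _ ≤ N ^ (1 - 4 * δ) * N := by
        apply mul_le_mul_of_nonneg_right _ hN0.le
        apply hmono
        nlinarith
  refine ⟨g1, g2, g3, g4, fun r hr1 hr2 => ?_⟩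
  have hr0 : (0 : ℝ) < r := by exact_mod_cast hr1
  have hr1' : (1 : ℝ) ≤ r := by exact_mod_cast hr1
  have k1 : N ^ (1 / (p : ℝ) + δ / 2) ≤ Y / r := by
    rw [le_div_iff₀ hr0]
    calc N ^ (1 / (p : ℝ) + δ / 2) * r ≤ N ^ (1 / (p : ℝ) + δ / 2) * N ^ (δ / 2) :=
          mul_le_mul_of_nonneg_left hr2 (hpos _).le
      _ = N ^ (1 / (p : ℝ) + δ) := by
          rw [← Real.rpow_add hN0]; congr 1; ring
      _ ≤ Y := hY1
  have k2 : N ^ (δ / 2) ≤ Y / r := le_trans (hmono _ _ (by linarith)) k1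
  have k3 : Y / r ≤ N := by
    have : Y / r ≤ Y := div_le_self hY0.le hr1'
    refine le_trans this (le_trans g3 ?_)
    have := hmono ((2 : ℝ) / 5) 1 (by norm_num)
    rwa [Real.rpow_one] at this
  refine ⟨k1, k2, k3, ?_, ?_⟩
  · unfold VV
    rw [Real.le_sqrt' (hpos _)]
    have e1 : (N ^ (δ / 2)) ^ 2 = N ^ δ := by
      rw [← Real.rpow_natCast, ← Real.rpow_mul hN0.le]
      congr 1
      push_cast
      ring
    have e2 : N ^ (1 + p * δ / 2) ≤ (Y / r) ^ p := by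
      have e3 : (N ^ (1 / (p : ℝ) + δ / 2)) ^ p ≤ (Y / r) ^ p := pow_le_pow_left₀ (hpos _).le k1 p
      have e4 : (N ^ (1 / (p : ℝ) + δ / 2)) ^ p = N ^ (1 + p * δ / 2) := by
        rw [← Real.rpow_natCast, ← Real.rpow_mul hN0.le]
        congr 1
        field_simp
      rwa [e4] at e3
    have e5 : N ^ (p * δ / 2) * N = N ^ (1 + p * δ / 2) := by
      nth_rewrite 2 [← Real.rpow_one N]
      rw [← Real.rpow_add hN0]
      congr 1
      ring
    rw [e1, le_div_iff₀ hN0]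
    calc N ^ δ * N ≤ N ^ (p * δ / 2) * N := by
          apply mul_le_mul_of_nonneg_right _ hN0.le
          apply hmono
          nlinarith
      _ = N ^ (1 + p * δ / 2) := e5
      _ ≤ (Y / r) ^ p := e2
      _ = 1 * 1 * (Y / r) ^ p := by ring
      _ ≤ 4 * r * (Y / r) ^ p := by
          apply mul_le_mul_of_nonneg_right _ (by positivity)
          nlinarith
  · have := (hQP1 p N Y r 1 h5 hN0 hY0 hr1 le_rfl).1
    calc VV p N r (Y / r) ≤ 2 * √(Y ^ p / N) / r := this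
      _ ≤ 2 * √(Y ^ p / N) := div_le_self (by positivity) hr1'
      _ ≤ 2 * N ^ (1 / 2 - 2 * δ) := by linarith

end Pool.Agent.AP
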