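import Pool.Agent.helper26.AP.SpecQ
import Pool.Agent.helper57.LT.DE

set_option autoImplicit false

namespace Pool.Agent.AP

open Finset NumberField Pool.Agent.helper3.FT Pool.Agent.helper47.RA Pool.Agent.T5

theorem QSD_mem (w q : ℕ) (hq : q.Prime) (h : q ≤ w) : q ∈ pr w := by
  simp only [pr, mem_filter, mem_range]
  exact ⟨by omega, hq⟩

theorem QSD_PP (w q r : ℕ) (hq : q.Prime) (h : w < q) (hr : r ∣ PP w) : ¬ q ∣ r := by
  intro h1
  have h2 : q ∣ PP w := dvd_trans h1 hr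
  unfold PP at h2
  rw [hq.prime.dvd_finset_prod_iff] at h2
  obtain ⟨l, hl, h3⟩ := h2
  simp only [pr, mem_filter, mem_range] at hl
  have := (Nat.prime_dvd_prime_iff_eq hq hl.2).1 h3
  omega

theorem QSD_fund4 (D₀ : ℤ) (h : IsFund D₀) : D₀ % 4 = 0 ∨ D₀ % 4 = 1 := by
  rcases h with ⟨h, -⟩ | ⟨m, h, -⟩
  · exact Or.inr h
  · left; omega

theorem QSD_two (g D₀ : ℤ) (h : D₀ % 4 = 0 ∨ D₀ % 4 = 1) : ((2 * g) ^ 2 * D₀) % 16 = 0 ∨ ((2 * g) ^ 2 * D₀) % 16 = 4 := by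
  have h1 : (2 * g) ^ 2 * D₀ = 4 * (g ^ 2 * D₀) := by ring
  have h2 : (g ^ 2 * D₀) % 4 = 0 ∨ (g ^ 2 * D₀) % 4 = 1 := by
    have hg : g % 4 = 0 ∨ g % 4 = 1 ∨ g % 4 = 2 ∨ g % 4 = 3 := by omega
    rcases hg with hg | hg | hg | hg <;> rcases h with h | h <;>
      simp [pow_two, Int.mul_emod, hg, h]
  rw [h1]
  omega

theorem QSD : QSD_stmt := by
  intro p w t R hw hr1 hz1 hneg hr hloc hnf
  obtain ⟨f, D₀, hf1, hF, hD⟩ := Pool.Agent.helper28.LT.exists_fund (dp p t) hneg hloc.1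
  have hf : f ≠ 1 := by
    rintro rfl
    apply hnf
    rw [hD]
    simpa using hF
  have key : ∀ q : ℕ, q.Prime → q ∣ f → w < q ∧ (q : ℤ) ^ 2 ∣ dp p t := by
    intro q hq hqf
    obtain ⟨g, rfl⟩ := hqf
    have hdv : (q : ℤ) ^ 2 ∣ dp p t := by
      rw [hD]
      exact ⟨(g : ℤ) ^ 2 * D₀, by push_cast; ring⟩
    refine ⟨?_, hdv⟩
    by_contra hlt
    have hmem := QSD_mem w q hq (by omega)
    have hP := hloc.2 q hmem
    unfold Pfund at hP
    by_cases h2 : q = 2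
    · subst h2
      rw [if_pos rfl] at hP
      have h3 : dp p t = (2 * (g : ℤ)) ^ 2 * D₀ := by rw [hD]; push_cast; ring
      have := QSD_two g D₀ (QSD_fund4 D₀ hF)
      rw [← h3] at this
      rcases this with h | h
      · exact hP.1 h
      · exact hP.2 h
    · rw [if_neg h2] at hP
      exact hP hdv
  by_cases hA : ∃ q : ℕ, q.Prime ∧ q ∣ f ∧ (q : ℝ) ≤ R
  · obtain ⟨q, hq, hqf, hqR⟩ := hA
    obtain ⟨k1, k2⟩ := key q hq hqf
    have k3 := QSD_PP w q t.1 hq k1 hr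
    by_cases hz : q ∣ t.2.1
    · exact Or.inr (Or.inl ⟨q, hq, k1, k3, hqR, hz, k2⟩)
    · exact Or.inl ⟨q, hq, k1, k3, hqR, hz, k2⟩
  · by_cases hB : ∃ q : ℕ, q.Prime ∧ q ∣ f ∧ q ∣ t.2.1
    · obtain ⟨q, hq, hqf, hz⟩ := hB
      obtain ⟨k1, k2⟩ := key q hq hqf
      have k3 := QSD_PP w q t.1 hq k1 hr
      have hR : R < q := by
        by_contra h
        exact hA ⟨q, hq, hqf, not_lt.1 h⟩
      exact Or.inr (Or.inr (Or.inl ⟨q, hq, k3, hR, hz, k2⟩))
    · refine Or.inr (Or.inr (Or.inr ⟨D₀, f, hF, by rw [hD]; ring, ?_, ?_⟩))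
      · obtain ⟨q, hq, hqf⟩ := Nat.exists_prime_and_dvd hf
        have hR : R < q := by
          by_contra h
          exact hA ⟨q, hq, hqf, not_lt.1 h⟩
        have h1 : q ≤ f := Nat.le_of_dvd hf1 hqf
        have h2 : (q : ℝ) ≤ f := by exact_mod_cast h1
        linarith
      · apply Nat.Coprime.mul_right
        · rw [Nat.coprime_iff_gcd_eq_one]
          by_contra hg
          obtain ⟨q, hq, hqg⟩ := Nat.exists_prime_and_dvd hg
          have h1 := dvd_trans hqg (Nat.gcd_dvd_left _ _)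
          have h2 := dvd_trans hqg (Nat.gcd_dvd_right _ _)
          exact QSD_PP w q t.1 hq (key q hq h1).1 hr h2
        · rw [Nat.coprime_iff_gcd_eq_one]
          by_contra hg
          obtain ⟨q, hq, hqg⟩ := Nat.exists_prime_and_dvd hg
          have h1 := dvd_trans hqg (Nat.gcd_dvd_left _ _)
          have h2 := dvd_trans hqg (Nat.gcd_dvd_right _ _)
          exact hB ⟨q, hq, h1, h2⟩

end Pool.Agent.AP
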