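import Pool.Agent.helper26.AP.SpecQ

set_option autoImplicit false

namespace Pool.Agent.AP

open Finset NumberField Pool.Agent.helper3.FT Pool.Agent.helper47.RA Pool.Agent.T5

theorem QSM_1 (m n : ℕ) (hm : 1 ≤ m) : ∑ k ∈ Ioc m n, 1 / (k : ℝ) ^ 2 ≤ 1 / (m : ℝ) := by
  rcases le_total m n with h | h
  · have := sum_Ioc_inv_sq_le_sub (α := ℝ) (k := m) (n := n) (by omega) h
    have h2 : (0 : ℝ) ≤ (n : ℝ)⁻¹ := by positivity
    calc ∑ k ∈ Ioc m n, 1 / (k : ℝ) ^ 2 = ∑ k ∈ Ioc m n, ((k : ℝ) ^ 2)⁻¹ := by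
          simp only [one_div]
      _ ≤ (m : ℝ)⁻¹ - (n : ℝ)⁻¹ := this
      _ ≤ 1 / (m : ℝ) := by rw [one_div]; linarith
  · rw [Finset.Ioc_eq_empty (by omega)]
    simp

theorem QSM_2 (n : ℕ) : ∑ k ∈ Ioc 0 n, 1 / (k : ℝ) ^ 2 ≤ 2 := by
  rcases Nat.eq_zero_or_pos n with rfl | hn
  · simp
  · have h1 : Ioc 0 n = insert 1 (Ioc 1 n) := by
      ext k
      simp only [mem_Ioc, mem_insert]
      omega
    rw [h1, Finset.sum_insert (by simp)]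
    have := QSM_1 1 n le_rfl
    norm_num at this ⊢
    linarith

theorem QSM_3 (R : ℝ) (n : ℕ) (hR : 1 ≤ R) : ∑ k ∈ Ioc ⌊R⌋₊ n, 1 / (k : ℝ) ^ 2 ≤ 2 / R := by
  have h1 : 1 ≤ ⌊R⌋₊ := Nat.one_le_floor_iff R |>.2 hR
  have h2 := QSM_1 ⌊R⌋₊ n h1
  have h3 : R < ⌊R⌋₊ + 1 := Nat.lt_floor_add_one R
  have h4 : (1 : ℝ) ≤ (⌊R⌋₊ : ℝ) := by exact_mod_cast h1
  refine le_trans h2 ?_
  rw [div_le_div_iff₀ (by linarith) (by linarith)]
  linarith

theorem QSM_4 (R : ℝ) (hR : 1 ≤ R) : ∑ k ∈ Ioc 0 ⌊R⌋₊, 1 / (k : ℝ) ≤ 1 + Real.log R := by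
  have h := harmonic_floor_le_one_add_log R hR
  refine le_trans (le_of_eq ?_) h
  rw [harmonic_eq_sum_Icc]
  push_cast
  apply Finset.sum_congr
  · ext k
    simp only [mem_Ioc, mem_Icc]
    omega
  · intro k _
    rw [one_div]

theorem QSM : QSM_stmt := by
  refine ⟨QSM_1, QSM_2, QSM_3, QSM_4, ?_, ?_⟩
  · intro w
    refine le_trans ?_ (QSM_2 (PP w))
    apply Finset.sum_le_sum_of_subset_of_nonneg
    · intro r hr
      have h1 := Nat.divisor_le hr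
      have h2 := Nat.pos_of_mem_divisors hr
      rw [mem_Ioc]
      exact ⟨h2, h1⟩
    · intro k _ _
      positivity
  · intro w R hR
    simp only [sum_const, Nat.card_Ioc, nsmul_eq_mul, mul_one]
    refine le_trans ?_ (Nat.floor_le hR)
    exact_mod_cast Nat.sub_le _ _

end Pool.Agent.AP
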