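import Pool.Agent.helper26.AP.SpecQ

set_option autoImplicit false

namespace Pool.Agent.AP

open Finset NumberField Pool.Agent.helper3.FT Pool.Agent.helper47.RA Pool.Agent.T5

theorem QSQ (hQP2 : QP2_stmt) (hQSD : QSD_stmt) (hQS1 : QS1_stmt) (hQS2 : QS2_stmt) (hQS3 : QS3_stmt)
    (hQS4 : QS4_stmt) : QSQ_stmt := by
  intro p β hp h5 hβ hBF hPR hFB hM1 hM2 hUB δ hδ
  obtain ⟨c₁, C₁, hc₁, hC₁, H1⟩ := hQS1 p hp h5 hM1 hM2 δ hδ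
  obtain ⟨c₂, C₂, hc₂, hC₂, H2⟩ := hQS2 p hp h5 hM1 hM2 δ hδ
  obtain ⟨c, hc, hcc₁, hcc₂, hch⟩ : ∃ c : ℝ, 0 < c ∧ c ≤ c₁ ∧ c ≤ c₂ ∧ c ≤ 1 / 2 := by
    refine ⟨min c₁ (min c₂ (1 / 2)), ?_, min_le_left _ _, ?_, ?_⟩
    · exact lt_min hc₁ (lt_min hc₂ (by norm_num))
    · exact le_trans (min_le_right _ _) (min_le_left _ _)
    · exact le_trans (min_le_right _ _) (min_le_right _ _)
  refine ⟨C₁ + C₂, by linarith, fun w hw ε hε => ?_⟩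
  obtain ⟨N₁, h1⟩ := H1 w hw (ε / 4) (by positivity)
  obtain ⟨N₂, h2⟩ := H2 w hw (ε / 4) (by positivity)
  obtain ⟨N₃, h3⟩ := hQS3 p hp h5 hM1 δ c (ε / 4) hδ hc (by positivity) w
  obtain ⟨N₄, h4⟩ := hQS4 p β hp h5 hUB hPR hFB δ c (ε / 4) hδ hc hch (by positivity)
  have hpr : (0 : ℝ) < p := by exact_mod_cast hp.pos
  -- `N^(1/p) ≥ 2` for large `N`
  obtain ⟨N₅, h5N1, h5N⟩ := QEV (1 / (p : ℝ)) 2 1 (by positivity) one_pos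
  refine ⟨max N₅ (max (max N₁ N₂) (max N₃ N₄)), fun N Y hN hY1 hY2 => ?_⟩
  have hNe : N₅ ≤ N := le_trans (le_max_left _ _) hN
  have hNr := le_trans (le_max_right _ _) hN
  have hNa : N₁ ≤ N := le_trans (le_trans (le_max_left _ _) (le_max_left _ _)) hNr
  have hNb : N₂ ≤ N := le_trans (le_trans (le_max_right _ _) (le_max_left _ _)) hNr
  have hNc : N₃ ≤ N := le_trans (le_trans (le_max_left _ _) (le_max_right _ _)) hNr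
  have hNd : N₄ ≤ N := le_trans (le_trans (le_max_right _ _) (le_max_right _ _)) hNr
  have hN1 : 1 ≤ N := le_trans h5N1 hNe
  have hN0 : 0 < N := by linarith
  have hY2' : Y ≤ N ^ (2 / (p : ℝ) - δ) :=
    le_trans hY2 (Real.rpow_le_rpow_of_exponent_le hN1 (by linarith))
  obtain ⟨q1, q2, q3, -, -⟩ := hQP2 p δ N Y h5 hδ hN1 hY1 hY2'
  have hYN : Y ≤ N := le_trans q3 (by
    have := Real.rpow_le_rpow_of_exponent_le hN1 (show ((2 : ℝ) / 5) ≤ 1 by norm_num)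
    rwa [Real.rpow_one] at this)
  have h2Y : 2 ≤ Y := by
    refine le_trans ?_ q2
    have h6 := h5N N hNe
    have h7 : 0 < N ^ (1 / (p : ℝ)) := Real.rpow_pos_of_pos hN0 _
    rw [Real.rpow_neg hN0.le] at h6
    have h8 : 2 * (N ^ (1 / (p : ℝ)))⁻¹ * N ^ (1 / (p : ℝ)) ≤ 1 * N ^ (1 / (p : ℝ)) :=
      mul_le_mul_of_nonneg_right h6 h7.le
    rwa [mul_assoc, inv_mul_cancel₀ h7.ne', mul_one, one_mul] at h8
  have hfin : {t : Q4 | Bas p N Y t}.Finite := hBF p N Y hN0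
  have hA := h1 N Y hNa hY1 hY2'
  have hB := h2 N Y hNb hY1 hY2'
  have hC := h3 N Y hNc hY1 hY2'
  have hD := h4 N Y hNd h2Y hYN hY2
  set S1 := {t : Q4 | Bas p N Y t ∧ t.1 ∣ PP w ∧
    ∃ q : ℕ, q.Prime ∧ w < q ∧ ¬ q ∣ t.1 ∧ (q : ℝ) ≤ N ^ c₁ ∧ ¬ q ∣ t.2.1 ∧ (q : ℤ) ^ 2 ∣ dp p t} with hS1
  set S2 := {t : Q4 | Bas p N Y t ∧ t.1 ∣ PP w ∧
    ∃ q : ℕ, q.Prime ∧ w < q ∧ ¬ q ∣ t.1 ∧ (q : ℝ) ≤ N ^ c₂ ∧ q ∣ t.2.1 ∧ (q : ℤ) ^ 2 ∣ dp p t} with hS2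
  set S3 := {t : Q4 | Bas p N Y t ∧ t.1 ∣ PP w ∧
    ∃ q : ℕ, q.Prime ∧ ¬ q ∣ t.1 ∧ N ^ c < q ∧ q ∣ t.2.1 ∧ (q : ℤ) ^ 2 ∣ dp p t} with hS3
  set S4 := {t : Q4 | Bas p N Y t ∧ ∃ (D₀ : ℤ) (f : ℕ), IsFund D₀ ∧ dp p t = D₀ * (f : ℤ) ^ 2 ∧ N ^ c ≤ f ∧
      Nat.Coprime f (t.1 * t.2.1)} with hS4
  have hsub : {t : Q4 | Bas p N Y t ∧ t.1 ∣ PP w ∧ Loc w p t ∧ ¬ IsFund (dp p t)} ⊆ (S1 ∪ S2) ∪ (S3 ∪ S4) := by
    intro t ht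
    obtain ⟨hb, hr, hl, hf⟩ := ht
    have hneg : dp p t < 0 := by
      have := hb.N1
      have h9 : (0 : ℝ) < -(dp p t : ℝ) := by linarith
      have h10 : ((dp p t : ℤ) : ℝ) < 0 := by linarith
      exact_mod_cast h10
    have hr1 : 1 ≤ t.1 := Nat.one_le_iff_ne_zero.2 hb.r1.ne_zero
    have m1 : N ^ c ≤ N ^ c₁ := Real.rpow_le_rpow_of_exponent_le hN1 hcc₁
    have m2 : N ^ c ≤ N ^ c₂ := Real.rpow_le_rpow_of_exponent_le hN1 hcc₂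
    rcases hQSD p w t (N ^ c) hw hr1 hb.z1 hneg hr hl hf with h | h | h | h
    · obtain ⟨q, a1, a2, a3, a4, a5, a6⟩ := h
      exact Or.inl (Or.inl ⟨hb, hr, q, a1, a2, a3, le_trans a4 m1, a5, a6⟩)
    · obtain ⟨q, a1, a2, a3, a4, a5, a6⟩ := h
      exact Or.inl (Or.inr ⟨hb, hr, q, a1, a2, a3, le_trans a4 m2, a5, a6⟩)
    · exact Or.inr (Or.inl ⟨hb, hr, h⟩)
    · exact Or.inr (Or.inr ⟨hb, h⟩)
  have hf1 : ((S1 ∪ S2) ∪ (S3 ∪ S4)).Finite := hfin.subset (by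
    intro t ht
    rcases ht with (ht | ht) | (ht | ht)
    · exact ht.1
    · exact ht.1
    · exact ht.1
    · exact ht.1)
  have h9 : ({t : Q4 | Bas p N Y t ∧ t.1 ∣ PP w ∧ Loc w p t ∧ ¬ IsFund (dp p t)}.ncard : ℝ) ≤
      ((S1.ncard : ℝ) + S2.ncard) + ((S3.ncard : ℝ) + S4.ncard) := by
    have e1 := Set.ncard_le_ncard hsub hf1
    have e2 := Set.ncard_union_le (S1 ∪ S2) (S3 ∪ S4)
    have e3 := Set.ncard_union_le S1 S2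
    have e4 := Set.ncard_union_le S3 S4
    have e5 : {t : Q4 | Bas p N Y t ∧ t.1 ∣ PP w ∧ Loc w p t ∧ ¬ IsFund (dp p t)}.ncard ≤
      (S1.ncard + S2.ncard) + (S3.ncard + S4.ncard) := by omega
    exact_mod_cast e5
  calc ({t : Q4 | Bas p N Y t ∧ t.1 ∣ PP w ∧ Loc w p t ∧ ¬ IsFund (dp p t)}.ncard : ℝ)
      ≤ ((C₁ / w + ε / 4) * (Y * √N) + (C₂ / w + ε / 4) * (Y * √N)) + (ε / 4 * (Y * √N) + ε / 4 * (Y * √N)) := by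
        linarith
    _ = ((C₁ + C₂) / w + ε) * (Y * √N) := by ring

end Pool.Agent.AP
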