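import Pool.Agent.helper26.AP.SpecQ

set_option autoImplicit false

/-!
# Row ap:QT2 (MP_16912e_nt): the tail `r > N^c`
-/

namespace Pool.Agent.AP

open Finset NumberField Pool.Agent.helper3.FT Pool.Agent.helper47.RA Pool.Agent.T5

theorem QT2 (hQCN : QCN_stmt) (hQSM : QSM_stmt) (hQA1 : QA1_stmt) (hQP1 : QP1_stmt) (hQP2 : QP2_stmt) :
    QT2_stmt := by
  intro p _ hp5 hM1 δ c ε hδ hc hε
  set e : ℝ := min c δ / 4 with he
  have he0 : 0 < e := by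
    have : 0 < min c δ := lt_min hc hδ
    positivity
  have hec : e ≤ c / 4 := by
    have : min c δ ≤ c := min_le_left _ _
    rw [he]; linarith
  have heδ : e ≤ δ / 4 := by
    have : min c δ ≤ δ := min_le_right _ _
    rw [he]; linarith
  obtain ⟨C₀, hC₀, hMU⟩ := hM1 e he0
  obtain ⟨N₁, hN₁1, hN₁⟩ := QEV (c / 2) (2 * C₀) (ε / 2) (by positivity) (by positivity)
  obtain ⟨N₂, hN₂1, hN₂⟩ := QEV δ (4 * C₀) (ε / 2) hδ (by positivity)
  refine ⟨max N₁ N₂, fun N Y hN hY1 hY2 => ?_⟩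
  have hNN₁ : N₁ ≤ N := (le_max_left _ _).trans hN
  have hNN₂ : N₂ ≤ N := (le_max_right _ _).trans hN
  have hN1 : 1 ≤ N := by linarith
  have hN0 : 0 < N := by linarith
  obtain ⟨hY, -, hY25, hsq, hr⟩ := hQP2 p δ N Y hp5 hδ hN1 hY1 hY2
  have hY0 : 0 < Y := by linarith
  have hYN : Y ≤ N := hY25.trans (by
    have := Real.rpow_le_rpow_of_exponent_le hN1 (show ((2 : ℝ) / 5) ≤ 1 by norm_num)
    rwa [Real.rpow_one] at this)
  have hcR : (1 : ℝ) ≤ N ^ c := Real.one_le_rpow hN1 hc.le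
  have hhalf : N ^ (1 / 2 : ℝ) = √N := (Real.sqrt_eq_rpow N).symm
  set B : ℕ → ℝ := fun i => C₀ * N ^ (2 * e) * (Y * √N + 2 * Y * N ^ (1 / 2 - 2 * δ)) * (1 / (i : ℝ) ^ 2)
    with hB
  have key := hQCN Q4 (ℕ × ℕ × ℤ) ℕ
    {t : Q4 | Bas p N Y t ∧ N ^ c < t.1}
    (Ioc ⌊N ^ c⌋₊ ⌊Y⌋₊)
    (fun i => {t : ℕ × ℕ × ℤ | MS p N i i 1 (Y / i) t})
    (fun i t => (i, t.1, t.2.1, t.2.2)) B ?_ ?_
  · refine key.2.trans ?_
    rw [hB, ← Finset.mul_sum]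
    have h1 := hQSM.2.2.1 (N ^ c) ⌊Y⌋₊ hcR
    have h1' : ∑ k ∈ Ioc ⌊N ^ c⌋₊ ⌊Y⌋₊, 1 / (k : ℝ) ^ 2 ≤ 2 * N ^ (-c) := by
      refine h1.trans (le_of_eq ?_)
      rw [Real.rpow_neg hN0.le]; ring
    have h2' : 2 * N ^ (-c) ≤ 2 := by
      have : N ^ (-c) ≤ 1 := Real.rpow_le_one_of_one_le_of_nonpos hN1 (by linarith)
      linarith
    have hS0 : 0 ≤ ∑ k ∈ Ioc ⌊N ^ c⌋₊ ⌊Y⌋₊, 1 / (k : ℝ) ^ 2 := Finset.sum_nonneg (fun _ _ => by positivity)
    have h3 : N ^ (2 * e) * N ^ (1 / 2 - 2 * δ) ≤ N ^ (-δ) * √N := by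
      rw [← hhalf, ← Real.rpow_add hN0, ← Real.rpow_add hN0]
      exact Real.rpow_le_rpow_of_exponent_le hN1 (by linarith)
    have h4 : N ^ (2 * e) * N ^ (-c) ≤ N ^ (-(c / 2)) := by
      rw [← Real.rpow_add hN0]
      exact Real.rpow_le_rpow_of_exponent_le hN1 (by linarith)
    have hYN0 : 0 ≤ Y * √N := by positivity
    have p2e : 0 < N ^ (2 * e) := Real.rpow_pos_of_pos hN0 _
    have pm : 0 < N ^ (1 / 2 - 2 * δ) := Real.rpow_pos_of_pos hN0 _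
    have a1 := hN₁ N hNN₁
    have a2 := hN₂ N hNN₂
    calc C₀ * N ^ (2 * e) * (Y * √N + 2 * Y * N ^ (1 / 2 - 2 * δ)) * ∑ k ∈ Ioc ⌊N ^ c⌋₊ ⌊Y⌋₊, 1 / (k : ℝ) ^ 2
        = C₀ * N ^ (2 * e) * (Y * √N) * (∑ k ∈ Ioc ⌊N ^ c⌋₊ ⌊Y⌋₊, 1 / (k : ℝ) ^ 2) +
          C₀ * N ^ (2 * e) * (2 * Y * N ^ (1 / 2 - 2 * δ)) * (∑ k ∈ Ioc ⌊N ^ c⌋₊ ⌊Y⌋₊, 1 / (k : ℝ) ^ 2) := by ring
      _ ≤ C₀ * N ^ (2 * e) * (Y * √N) * (2 * N ^ (-c)) +
          C₀ * N ^ (2 * e) * (2 * Y * N ^ (1 / 2 - 2 * δ)) * 2 := by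
          apply add_le_add
          · exact mul_le_mul_of_nonneg_left h1' (by positivity)
          · exact mul_le_mul_of_nonneg_left (h1'.trans h2') (by positivity)
      _ = 2 * C₀ * (N ^ (2 * e) * N ^ (-c)) * (Y * √N) +
          4 * C₀ * Y * (N ^ (2 * e) * N ^ (1 / 2 - 2 * δ)) := by ring
      _ ≤ 2 * C₀ * N ^ (-(c / 2)) * (Y * √N) + 4 * C₀ * Y * (N ^ (-δ) * √N) := by
          apply add_le_add
          · apply mul_le_mul_of_nonneg_right _ hYN0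
            exact mul_le_mul_of_nonneg_left h4 (by positivity)
          · exact mul_le_mul_of_nonneg_left h3 (by positivity)
      _ = (2 * C₀ * N ^ (-(c / 2)) + 4 * C₀ * N ^ (-δ)) * (Y * √N) := by ring
      _ ≤ ε * (Y * √N) := by
          apply mul_le_mul_of_nonneg_right _ hYN0
          linarith
  · -- finiteness and the bound
    intro r hi
    rw [Finset.mem_Ioc] at hi
    obtain ⟨hi2, hi3⟩ := hi
    have hr1 : 1 ≤ r := by omega
    have hr0 : (0 : ℝ) < r := by exact_mod_cast hr1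
    have hrY : (r : ℝ) ≤ Y := (Nat.le_floor_iff hY0.le).1 hi3
    have hZ1 : 1 ≤ Y / r := by
      rw [le_div_iff₀ hr0]; linarith
    obtain ⟨f1, f2⟩ := hMU N (Y / r) r r 1 hN1 hZ1 hr1 hr1 le_rfl (dvd_refl r)
    refine ⟨f1, f2.trans ?_⟩
    have h7 := (hQP1 p N Y r 1 hp5 hN0 hY0 hr1 le_rfl).1
    have h8 : Y / r * VV p N r (Y / r) ≤ 2 * Y * N ^ (1 / 2 - 2 * δ) * (1 / (r : ℝ) ^ 2) := by
      calc Y / r * VV p N r (Y / r) ≤ Y / r * (2 * √(Y ^ p / N) / r) :=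
            mul_le_mul_of_nonneg_left h7 (by positivity)
        _ ≤ Y / r * (2 * N ^ (1 / 2 - 2 * δ) / r) := by
            refine mul_le_mul_of_nonneg_left ?_ (by positivity)
            exact div_le_div_of_nonneg_right (by linarith) hr0.le
        _ = 2 * Y * N ^ (1 / 2 - 2 * δ) * (1 / (r : ℝ) ^ 2) := by
            field_simp
    have h9 : Y / r * √N / (r * ((1 : ℕ) : ℝ) ^ 2) = Y * √N * (1 / (r : ℝ) ^ 2) := by
      push_cast
      field_simp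
    have h10 : (N * (Y / r) * r * ((1 : ℕ) : ℝ)) ^ e ≤ N ^ (2 * e) := by
      have e1 : N * (Y / r) * r * ((1 : ℕ) : ℝ) = N * Y := by
        push_cast
        field_simp
      rw [e1]
      have e2 : N ^ (2 * e) = (N * N) ^ e := by
        rw [Real.mul_rpow hN0.le hN0.le, ← Real.rpow_add hN0]; congr 1; ring
      rw [e2]
      apply Real.rpow_le_rpow (by positivity) _ he0.le
      exact mul_le_mul_of_nonneg_left hYN hN0.le
    rw [h9]
    have h11 : 0 ≤ Y * √N * (1 / (r : ℝ) ^ 2) + Y / r * VV p N r (Y / r) := by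
      have : 0 ≤ VV p N r (Y / r) := Real.sqrt_nonneg _
      positivity
    calc C₀ * (N * (Y / r) * r * ((1 : ℕ) : ℝ)) ^ e * (Y * √N * (1 / (r : ℝ) ^ 2) + Y / r * VV p N r (Y / r))
        ≤ C₀ * N ^ (2 * e) * (Y * √N * (1 / (r : ℝ) ^ 2) + Y / r * VV p N r (Y / r)) := by
          apply mul_le_mul_of_nonneg_right _ h11
          exact mul_le_mul_of_nonneg_left h10 (by linarith)
      _ ≤ C₀ * N ^ (2 * e) * (Y * √N * (1 / (r : ℝ) ^ 2) + 2 * Y * N ^ (1 / 2 - 2 * δ) * (1 / (r : ℝ) ^ 2)) := by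
          apply mul_le_mul_of_nonneg_left _ (by positivity)
          linarith
      _ = B r := by rw [hB]; ring
  · -- the covering
    rintro ⟨r, z, y, x⟩ ⟨hbas, hrc⟩
    simp only at hrc
    obtain ⟨hr1, -, -, hms⟩ := hQA1 p N Y r z y x hp5 hbas
    refine ⟨r, ?_, (z, y, x), hms, rfl⟩
    rw [Finset.mem_Ioc]
    constructor
    · rw [Nat.floor_lt (by positivity)]; exact hrc
    · apply Nat.le_floor
      have h1 := hbas.Y2
      have h2 := hbas.z1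
      simp only at h1 h2
      have h3 : (1 : ℝ) ≤ z := by exact_mod_cast h2
      have h4 : (0 : ℝ) ≤ r := by positivity
      nlinarith

end Pool.Agent.AP
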