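import Pool.Agent.helper26.AP.SpecQ

set_option autoImplicit false

namespace Pool.Agent.AP

open Finset NumberField Pool.Agent.helper3.FT Pool.Agent.helper47.RA Pool.Agent.T5

theorem QTR (hQT1 : QT1_stmt) (hQT2 : QT2_stmt) : QTR_stmt := by
  intro p hp h5 hBF hM1 hM2 δ hδ
  obtain ⟨c, C, hc, hC, H⟩ := hQT1 p hp h5 hM1 hM2 δ hδ
  refine ⟨C, hC, fun w hw ε hε => ?_⟩
  obtain ⟨N₁, h1⟩ := H w hw (ε / 2) (by positivity)
  obtain ⟨N₂, h2⟩ := hQT2 p hp h5 hM1 δ c (ε / 2) hδ hc (by positivity)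
  refine ⟨max 1 (max N₁ N₂), fun N Y hN hY1 hY2 => ?_⟩
  have hN1 : 1 ≤ N := le_trans (le_max_left _ _) hN
  have hNa : N₁ ≤ N := le_trans (le_trans (le_max_left _ _) (le_max_right _ _)) hN
  have hNb : N₂ ≤ N := le_trans (le_trans (le_max_right _ _) (le_max_right _ _)) hN
  have hfin : {t : Q4 | Bas p N Y t}.Finite := hBF p N Y (by linarith)
  have hA := h1 N Y hNa hY1 hY2
  have hB := h2 N Y hNb hY1 hY2
  have hsub : {t : Q4 | Bas p N Y t ∧ w < t.1} ⊆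
      {t : Q4 | Bas p N Y t ∧ w < t.1 ∧ (t.1 : ℝ) ≤ N ^ c} ∪ {t : Q4 | Bas p N Y t ∧ N ^ c < t.1} := by
    intro t ht
    rcases le_or_gt ((t.1 : ℝ)) (N ^ c) with h | h
    · exact Or.inl ⟨ht.1, ht.2, h⟩
    · exact Or.inr ⟨ht.1, h⟩
  have hf1 : ({t : Q4 | Bas p N Y t ∧ w < t.1 ∧ (t.1 : ℝ) ≤ N ^ c} ∪ {t : Q4 | Bas p N Y t ∧ N ^ c < t.1}).Finite :=
    hfin.subset (by
      intro t ht
      rcases ht with ht | ht
      · exact ht.1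
      · exact ht.1)
  have h3 : ({t : Q4 | Bas p N Y t ∧ w < t.1}.ncard : ℝ) ≤
      ({t : Q4 | Bas p N Y t ∧ w < t.1 ∧ (t.1 : ℝ) ≤ N ^ c}.ncard : ℝ) +
      ({t : Q4 | Bas p N Y t ∧ N ^ c < t.1}.ncard : ℝ) := by
    have := le_trans (Set.ncard_le_ncard hsub hf1) (Set.ncard_union_le _ _)
    exact_mod_cast this
  calc ({t : Q4 | Bas p N Y t ∧ w < t.1}.ncard : ℝ) ≤ (C / w + ε / 2) * (Y * √N) + ε / 2 * (Y * √N) := by
        linarith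
    _ = (C / w + ε) * (Y * √N) := by ring

end Pool.Agent.AP
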