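import Pool.Agent.helper26.AP.SpecQ

set_option autoImplicit false

namespace Pool.Agent.AP

open Finset NumberField Pool.Agent.helper3.FT Pool.Agent.helper47.RA Pool.Agent.T5

theorem QU2_DN (M : ℝ) (hM : M < 1) : DN M = ∅ := by
  rw [Finset.eq_empty_iff_forall_notMem]
  intro D hD
  simp only [DN, mem_filter, mem_Icc] at hD
  obtain ⟨⟨h1, h2⟩, -, -⟩ := hD
  have h3 : ⌊M⌋ < 1 := by
    rw [Int.floor_lt]; exact_mod_cast hM
  omega

theorem QU2 : QU2_stmt := by
  refine ⟨fun p M Y hM => ?_, fun p M Y hY => ?_, fun p M Y => ?_⟩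
  · unfold AA PA
    rw [QU2_DN M hM]
    simp
  · unfold AA
    apply Finset.sum_eq_zero
    intro D _
    unfold cAp
    split_ifs with h
    · have h0 : IAp p h.some.K Y = ∅ := by
        rw [Set.eq_empty_iff_forall_notMem]
        rintro a ⟨ha0, -, -, hnp, -, hY2⟩
        have h1 : (Ideal.absNorm a : ℝ) < 2 := lt_of_le_of_lt hY2 hY
        have h2 : Ideal.absNorm a < 2 := by exact_mod_cast h1
        have h3 : Ideal.absNorm a ≠ 0 := by
          rw [Ne, Ideal.absNorm_eq_zero_iff]
          exact ha0
        have h4 : Ideal.absNorm a = 1 := by omega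
        rw [Ideal.absNorm_eq_one_iff] at h4
        apply hnp
        rw [h4]
        exact top_isPrincipal
      rw [h0]
      simp
    · simp
  · constructor
    · exact Finset.sum_nonneg (fun D _ => Nat.cast_nonneg _)
    · exact Finset.sum_nonneg (fun D _ => Nat.cast_nonneg _)

end Pool.Agent.AP
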