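import Pool.Agent.helper26.AP.SpecQ

set_option autoImplicit false

/-!
# Row ap:QUB (MP_16912e_nt): upper bound for the small slices
-/

namespace Pool.Agent.AP

open Finset NumberField Pool.Agent.helper3.FT Pool.Agent.helper47.RA Pool.Agent.T5

theorem QUB (hQU1 : QU1_stmt) (hQU2 : QU2_stmt) : QUB_stmt := by
  intro p hp h5 hAE hAT hM1 δ hδ
  have hp5 : (5 : ℝ) ≤ p := by exact_mod_cast h5
  have hp0 : (0 : ℝ) < p := by linarith
  refine ⟨min (p * δ / 8) (1 / 8), lt_min (by positivity) (by norm_num), ?_⟩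
  set c : ℝ := min (p * δ / 8) (1 / 8) with hc
  have hc0 : 0 < c := lt_min (by positivity) (by norm_num)
  have hcp : c ≤ p * δ / 8 := min_le_left _ _
  have hc8 : c ≤ 1 / 8 := min_le_right _ _
  intro ε hε
  obtain ⟨C₁, hC₁, H1⟩ := hAT (ε / 2) (by positivity)
  obtain ⟨C₂, hC₂, H2⟩ := hQU1 p hp h5 hAE hM1 (ε / 2) (by positivity)
  refine ⟨8 * C₁ + C₂, by linarith, ?_⟩
  intro N M Y hM1' hMN hY1 hY2
  have hN1 : 1 ≤ N := by linarith
  have hN0 : 0 < N := by linarith
  have hM0 : 0 < M := by linarith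
  have hY0 : 0 < Y := by linarith
  have hmono : ∀ a b : ℝ, a ≤ b → N ^ a ≤ N ^ b := fun a b h => Real.rpow_le_rpow_of_exponent_le hN1 h
  have hpos : ∀ a : ℝ, 0 < N ^ a := fun a => Real.rpow_pos_of_pos hN0 a
  have hhalf : N ^ (1 / 2 : ℝ) = √N := (Real.sqrt_eq_rpow N).symm
  have h32 : 3 / (2 * (p : ℝ)) ≤ 3 / 10 := by
    apply div_le_div_of_nonneg_left (by norm_num) (by norm_num)
    linarith
  have hY3 : Y ≤ N ^ (3 / 10 : ℝ) := hY2.trans (hmono _ _ (by linarith))
  have hYN : Y ≤ N := hY3.trans (by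
    have := hmono (3 / 10 : ℝ) 1 (by norm_num)
    rwa [Real.rpow_one] at this)
  have hsM : 0 ≤ √M := Real.sqrt_nonneg M
  have hsN : 0 < √N := Real.sqrt_pos.2 hN0
  have hX : 0 ≤ Y * √M + N ^ (-c) * (Y * √N) := by
    have := hpos (-c)
    positivity
  rcases lt_or_ge Y 2 with hlt | h2Y
  · rw [hQU2.2.1 p M Y hlt]
    have := hpos ε
    positivity
  -- the bound from AT
  have hATY : ∀ X : ℝ, M * Y ≤ 8 * X → 0 ≤ X → X ≤ Y * √M + N ^ (-c) * (Y * √N) →
      AA p M Y ≤ (8 * C₁ + C₂) * N ^ ε * (Y * √M + N ^ (-c) * (Y * √N)) := by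
    intro X hX1 hX0 hX2
    have e1 := H1 M Y hM1' hY1
    have e2 : Y ^ (ε / 2) ≤ N ^ ε := by
      calc Y ^ (ε / 2) ≤ N ^ (ε / 2) := Real.rpow_le_rpow hY0.le hYN (by positivity)
        _ ≤ N ^ ε := hmono _ _ (by linarith)
    have pε := hpos ε
    calc AA p M Y ≤ C₁ * Y ^ (ε / 2) * (M * Y) := e1
      _ ≤ C₁ * N ^ ε * (8 * X) := by
          apply mul_le_mul _ hX1 (by positivity) (by positivity)
          exact mul_le_mul_of_nonneg_left e2 (by linarith)
      _ ≤ C₁ * N ^ ε * (8 * (Y * √M + N ^ (-c) * (Y * √N))) := by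
          apply mul_le_mul_of_nonneg_left _ (by positivity)
          linarith
      _ = (8 * C₁) * N ^ ε * (Y * √M + N ^ (-c) * (Y * √N)) := by ring
      _ ≤ (8 * C₁ + C₂) * N ^ ε * (Y * √M + N ^ (-c) * (Y * √N)) := by
          apply mul_le_mul_of_nonneg_right _ hX
          apply mul_le_mul_of_nonneg_right _ pε.le
          linarith
  have hMM : √M * √M = M := Real.mul_self_sqrt hM0.le
  rcases lt_or_ge M 16 with hM16 | hM16
  · -- `M < 16`
    apply hATY (Y * √M) _ (by positivity)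
    · have := hpos (-c)
      have : 0 ≤ N ^ (-c) * (Y * √N) := by positivity
      linarith
    · have h4 : √M ≤ 4 := by
        rw [Real.sqrt_le_left (by norm_num)]
        linarith
      calc M * Y = Y * √M * √M := by rw [mul_assoc, hMM]; ring
        _ ≤ Y * √M * 8 := mul_le_mul_of_nonneg_left (by linarith) (by positivity)
        _ = 8 * (Y * √M) := by ring
  rcases le_or_gt M (8 * Y) with hM8 | hM8
  · -- `M ≤ 8 Y`
    apply hATY (N ^ (-c) * (Y * √N)) _ (by have := hpos (-c); positivity)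
    · have : 0 ≤ Y * √M := by positivity
      linarith
    · have e1 : N ^ (3 / 10 : ℝ) ≤ N ^ (-c) * √N := by
        rw [← hhalf, ← Real.rpow_add hN0]
        exact hmono _ _ (by linarith)
      calc M * Y ≤ 8 * Y * Y := mul_le_mul_of_nonneg_right hM8 hY0.le
        _ ≤ 8 * Y * (N ^ (-c) * √N) := mul_le_mul_of_nonneg_left (hY3.trans e1) (by positivity)
        _ = 8 * (N ^ (-c) * (Y * √N)) := by ring
  rcases lt_or_ge M (N ^ (1 / 2 - 2 * c)) with hMs | hMs
  · -- `M < N ^ (1/2 - 2c)`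
    apply hATY (N ^ (-c) * (Y * √N)) _ (by have := hpos (-c); positivity)
    · have : 0 ≤ Y * √M := by positivity
      linarith
    · have e1 : N ^ (1 / 2 - 2 * c) ≤ N ^ (-c) * √N := by
        rw [← hhalf, ← Real.rpow_add hN0]
        exact hmono _ _ (by linarith)
      have e2 : 0 ≤ N ^ (-c) * √N * Y := by
        have := hpos (-c)
        positivity
      calc M * Y ≤ (N ^ (-c) * √N) * Y := mul_le_mul_of_nonneg_right (hMs.le.trans e1) hY0.le
        _ ≤ 8 * ((N ^ (-c) * √N) * Y) := by linarith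
        _ = 8 * (N ^ (-c) * (Y * √N)) := by ring
  -- the main case
  have e1 := H2 M Y hM16 h2Y hM8
  have e2 : (M * Y) ^ (ε / 2) ≤ N ^ ε := by
    have e3 : N ^ ε = (N * N) ^ (ε / 2) := by
      rw [Real.mul_rpow hN0.le hN0.le, ← Real.rpow_add hN0]; congr 1; ring
    rw [e3]
    apply Real.rpow_le_rpow (by positivity) _ (by positivity)
    exact mul_le_mul hMN hYN hY0.le hN0.le
  have e4 : √(Y ^ p / M) ≤ N ^ (-c) * √N := by
    rw [← hhalf, ← Real.rpow_add hN0, Real.sqrt_le_iff]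
    refine ⟨(hpos _).le, ?_⟩
    have g1 : (N ^ (-c + 1 / 2)) ^ 2 = N ^ (1 - 2 * c) := by
      rw [← Real.rpow_natCast, ← Real.rpow_mul hN0.le]
      congr 1
      push_cast
      ring
    have g2 : Y ^ p ≤ N ^ (3 / 2 - p * δ) := by
      have g3 : Y ^ p ≤ (N ^ (3 / (2 * (p : ℝ)) - δ)) ^ p := pow_le_pow_left₀ hY0.le hY2 p
      have g4 : (N ^ (3 / (2 * (p : ℝ)) - δ)) ^ p = N ^ (3 / 2 - p * δ) := by
        rw [← Real.rpow_natCast, ← Real.rpow_mul hN0.le]
        congr 1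
        field_simp
      rwa [g4] at g3
    rw [g1, div_le_iff₀ hM0]
    calc Y ^ p ≤ N ^ (3 / 2 - p * δ) := g2
      _ ≤ N ^ (3 / 2 - 4 * c) := hmono _ _ (by linarith)
      _ = N ^ (1 - 2 * c) * N ^ (1 / 2 - 2 * c) := by
          rw [← Real.rpow_add hN0]; congr 1; ring
      _ ≤ N ^ (1 - 2 * c) * M := mul_le_mul_of_nonneg_left hMs (hpos _).le
  have pε := hpos ε
  calc AA p M Y ≤ C₂ * (M * Y) ^ (ε / 2) * (Y * √M + Y * √(Y ^ p / M)) := e1
    _ ≤ C₂ * N ^ ε * (Y * √M + Y * (N ^ (-c) * √N)) := by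
        apply mul_le_mul
        · exact mul_le_mul_of_nonneg_left e2 (by linarith)
        · have := mul_le_mul_of_nonneg_left e4 hY0.le
          linarith
        · positivity
        · positivity
    _ = C₂ * N ^ ε * (Y * √M + N ^ (-c) * (Y * √N)) := by ring
    _ ≤ (8 * C₁ + C₂) * N ^ ε * (Y * √M + N ^ (-c) * (Y * √N)) := by
        apply mul_le_mul_of_nonneg_right _ hX
        apply mul_le_mul_of_nonneg_right _ pε.le
        linarith

end Pool.Agent.AP
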