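import Pool.Agent.helper26.AP.QCN
import Pool.Agent.helper26.AP.QSM
import Pool.Agent.helper26.AP.QA1
import Pool.Agent.helper90.AP.QA2
import Pool.Agent.helper35.AP.QA3
import Pool.Agent.helper52.AP.QP1
import Pool.Agent.helper26.AP.QP2
import Pool.Agent.helper26.AP.QSD
import Pool.Agent.helper26.AP.QU2
import Pool.Agent.helper26.AP.QT1
import Pool.Agent.helper26.AP.QT2
import Pool.Agent.helper26.AP.QTR
import Pool.Agent.helper82.AP.QS1
import Pool.Agent.helper82.AP.QS2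
import Pool.Agent.helper57.AP.QS3
import Pool.Agent.helper35.AP.QS4
import Pool.Agent.helper26.AP.QSQ
import Pool.Agent.helper45.AP.QU1
import Pool.Agent.helper26.AP.QUB

set_option autoImplicit false

/-!
# AP (MP_16912e_nt), block Q is complete
-/

namespace Pool.Agent.AP

theorem qQP2 : QP2_stmt := QP2 QP1

theorem qQA2 : QA2_stmt := QA2 QA1

theorem qQA3 : QA3_stmt := QA3 QA1

/-- **block Q** -/
theorem qQ : Q_stmt :=
  QAL (QTR (QT1 QCN QSM QA1 QP1 qQP2) (QT2 QCN QSM QA1 QP1 qQP2))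
    (QSQ qQP2 QSD (QS1 QCN QSM qQA2 QP1 qQP2) (QS2 QCN QSM qQA3 QP1 qQP2) (QS3 QCN QSM qQA3 QP1 qQP2)
      (QS4 QU2))
    (QUB (QU1 QCN QSM QA1 QP1) QU2)

end Pool.Agent.AP
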