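import Pool.Agent.helper95.AP.SpecL

set_option autoImplicit false

/-!
# Row ap:LRH (MP_16912e_nt): the number of roots
-/

namespace Pool.Agent.APL

open Finset NumberField Pool.Agent.helper3.FT Pool.Agent.helper47.RA Pool.Agent.T5 Pool.Agent.AP

theorem LRH_dvd (hLMD : LMD_stmt) (K : ℕ) (hK : 1 ≤ K) (X : ℤ) :
    (K : ℤ) ^ 2 ∣ X ↔ ∀ q ∈ K.primeFactors, (q : ℤ) ^ (2 * K.factorization q) ∣ X := by
  have h1 : (K : ℤ) ^ 2 = ∏ q ∈ K.primeFactors, (q : ℤ) ^ (2 * K.factorization q) := by
    have := hLMD.2 K hK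
    have h2 : ((K ^ 2 : ℕ) : ℤ) = ((∏ q ∈ K.primeFactors, q ^ (2 * K.factorization q) : ℕ) : ℤ) := by rw [this]
    push_cast at h2
    exact h2
  constructor
  · intro h q hq
    refine dvd_trans ?_ h
    rw [h1]
    exact Finset.dvd_prod_of_mem (fun q : ℕ => (q : ℤ) ^ (2 * K.factorization q)) hq
  · intro h
    rw [h1]
    apply Finset.prod_dvd_of_coprime _ h
    intro a ha b hb hab
    have pa : a.Prime := Nat.prime_of_mem_primeFactors ha
    have pb : b.Prime := Nat.prime_of_mem_primeFactors hb
    have hc : Nat.Coprime a b := (Nat.coprime_primes pa pb).2 hab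
    have : IsCoprime (a : ℤ) (b : ℤ) := Nat.isCoprime_iff_coprime.2 hc
    exact this.pow

theorem LRH_jac (q n : ℕ) (hq : q.Prime) (h2 : q ≠ 2) :
    jacobiSym (4 * (n : ℤ)) q = jacobiSym (n : ℤ) q := by
  rw [jacobiSym.mul_left]
  have h4 : (4 : ℤ) = 2 ^ 2 := by norm_num
  have hc : Int.gcd 2 (q : ℤ) = 1 := by
    have h3 : Nat.Coprime 2 q := (Nat.coprime_primes Nat.prime_two hq).2 (fun h => h2 h.symm)
    exact h3
  rw [h4, jacobiSym.sq_one' hc, one_mul]

theorem LRH (hLCR : LCR_stmt) (hLMD : LMD_stmt) (hLHN : LHN_stmt) (hLR8 : LR8_stmt) : LRH_stmt := by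
  intro K n hK hco
  classical
  set C : ℕ → ℕ → Prop := fun q x => (q : ℤ) ^ (2 * K.factorization q) ∣ (x : ℤ) ^ 2 - 4 * (n : ℤ) with hC
  set m : ℕ → ℕ := fun q => q ^ (2 * K.factorization q) with hm
  have key := hLCR K.primeFactors m C ?_ ?_ ?_
  · have e1 : K ^ 2 = ∏ q ∈ K.primeFactors, m q := hLMD.2 K hK
    have e2 : ((range (K ^ 2)).filter (fun x : ℕ => (K : ℤ) ^ 2 ∣ (x : ℤ) ^ 2 - 4 * (n : ℤ))).card =
        ∏ q ∈ K.primeFactors, ((range (m q)).filter (C q)).card := by
      refine Eq.trans ?_ (Eq.trans key ?_)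
      · apply congrArg Finset.card
        ext x
        simp only [mem_filter, mem_range]
        rw [← e1]
        refine and_congr_right (fun _ => ?_)
        exact LRH_dvd hLMD K hK _
      · refine Finset.prod_congr rfl (fun q _ => ?_)
        apply congrArg Finset.card
        ext x
        simp only [mem_filter, mem_range]
    rw [e2]
    -- the local factors
    have hodd : ∀ q ∈ K.primeFactors.filter (fun q => 2 < q),
        (((range (m q)).filter (C q)).card : ℤ) = 1 + jacobiSym (n : ℤ) q := by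
      intro q hq
      rw [mem_filter] at hq
      have pq : q.Prime := Nat.prime_of_mem_primeFactors hq.1
      have hqK : q ∣ K := Nat.dvd_of_mem_primeFactors hq.1
      have hv : 1 ≤ K.factorization q := (pq.dvd_iff_one_le_factorization (by omega)).1 hqK
      have hqn : ¬ q ∣ n := by
        intro h
        have h1 : q ∣ Nat.gcd K n := Nat.dvd_gcd hqK h
        rw [hco] at h1
        exact pq.one_lt.ne' (Nat.dvd_one.1 h1)
      have h4n : ¬ (q : ℤ) ∣ 4 * (n : ℤ) := by
        intro h
        have h1 : q ∣ 4 * n := by exact_mod_cast h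
        rcases pq.dvd_mul.1 h1 with h2 | h2
        · have h3 : q ∣ 2 ^ 2 := by simpa using h2
          have h5 := (Nat.prime_dvd_prime_iff_eq pq Nat.prime_two).1 (pq.dvd_of_dvd_pow h3)
          omega
        · exact hqn h2
      have h1 := hLHN q (2 * K.factorization q) (4 * (n : ℤ)) pq (by omega) (by omega) h4n
      rw [LRH_jac q n pq (by omega)] at h1
      rw [← h1]
    have heven : ∀ q ∈ K.primeFactors.filter (fun q => ¬ 2 < q),
        (((range (m q)).filter (C q)).card : ℤ) ≤ 8 := by
      intro q hq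
      rw [mem_filter] at hq
      have pq : q.Prime := Nat.prime_of_mem_primeFactors hq.1
      have h2 : q = 2 := by
        have := pq.two_le
        omega
      subst h2
      have hqK : 2 ∣ K := Nat.dvd_of_mem_primeFactors hq.1
      have hv : 1 ≤ K.factorization 2 := (pq.dvd_iff_one_le_factorization (by omega)).1 hqK
      have hqn : ¬ 2 ∣ n := by
        intro h
        have h1 : 2 ∣ Nat.gcd K n := Nat.dvd_gcd hqK h
        rw [hco] at h1
        omega
      have h1 := hLR8 n (K.factorization 2) hqn hv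
      have h3 : ((range (m 2)).filter (C 2)).card ≤ 8 := by
        refine le_trans (le_of_eq ?_) h1
        apply congrArg Finset.card
        ext x
        simp only [mem_filter, mem_range]
        exact Iff.rfl
      exact_mod_cast h3
    have hcard : (K.primeFactors.filter (fun q => ¬ 2 < q)).card ≤ 1 := by
      rw [Finset.card_le_one]
      intro a ha b hb
      rw [mem_filter] at ha hb
      have := (Nat.prime_of_mem_primeFactors ha.1).two_le
      have := (Nat.prime_of_mem_primeFactors hb.1).two_le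
      omega
    have hle8 : ∏ q ∈ K.primeFactors.filter (fun q => ¬ 2 < q), (((range (m q)).filter (C q)).card : ℤ) ≤ 8 := by
      calc ∏ q ∈ K.primeFactors.filter (fun q => ¬ 2 < q), (((range (m q)).filter (C q)).card : ℤ)
          ≤ ∏ _q ∈ K.primeFactors.filter (fun q => ¬ 2 < q), (8 : ℤ) :=
            Finset.prod_le_prod (fun _ _ => by positivity) heven
        _ = 8 ^ (K.primeFactors.filter (fun q => ¬ 2 < q)).card := by rw [Finset.prod_const]
        _ ≤ 8 ^ 1 := pow_le_pow_right₀ (by norm_num) hcard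
        _ = 8 := by norm_num
    have hnn : 0 ≤ ∏ q ∈ K.primeFactors.filter (fun q => 2 < q), (((range (m q)).filter (C q)).card : ℤ) :=
      Finset.prod_nonneg (fun _ _ => by positivity)
    push_cast
    rw [← Finset.prod_filter_mul_prod_filter_not K.primeFactors (fun q => 2 < q)]
    have hk : kap 2 K (n : ℤ) = ∏ q ∈ K.primeFactors.filter (fun q => 2 < q),
        (((range (m q)).filter (C q)).card : ℤ) := by
      unfold kap
      exact (Finset.prod_congr rfl hodd).symm
    rw [hk, mul_comm]
    exact mul_le_mul_of_nonneg_right hle8 hnn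
  · intro q hq
    exact Nat.one_le_pow _ _ (Nat.prime_of_mem_primeFactors hq).pos
  · intro a ha b hb hab
    have pa : a.Prime := Nat.prime_of_mem_primeFactors ha
    have pb : b.Prime := Nat.prime_of_mem_primeFactors hb
    exact Nat.Coprime.pow _ _ ((Nat.coprime_primes pa pb).2 hab)
  · intro q hq x
    simp only [hC, hm]
    have h1 : ((q : ℤ) ^ (2 * K.factorization q)) ∣ (x : ℤ) ^ 2 - ((x % q ^ (2 * K.factorization q) : ℕ) : ℤ) ^ 2 := by
      have h2 : ((q : ℤ) ^ (2 * K.factorization q)) ∣ (x : ℤ) - ((x % q ^ (2 * K.factorization q) : ℕ) : ℤ) := by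
        push_cast
        exact Int.dvd_self_sub_emod
      have h3 : (x : ℤ) ^ 2 - ((x % q ^ (2 * K.factorization q) : ℕ) : ℤ) ^ 2 =
          ((x : ℤ) - ((x % q ^ (2 * K.factorization q) : ℕ) : ℤ)) *
          ((x : ℤ) + ((x % q ^ (2 * K.factorization q) : ℕ) : ℤ)) := by ring
      rw [h3]
      exact Dvd.dvd.mul_right h2 _
    have h4 : (x : ℤ) ^ 2 - 4 * (n : ℤ) =
        ((x : ℤ) ^ 2 - ((x % q ^ (2 * K.factorization q) : ℕ) : ℤ) ^ 2) +
        (((x % q ^ (2 * K.factorization q) : ℕ) : ℤ) ^ 2 - 4 * (n : ℤ)) := by ring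
    rw [h4]
    exact dvd_add_right h1

end Pool.Agent.APL
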