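import Pool.Agent.helper26.AP.SpecQ

set_option autoImplicit false

namespace Pool.Agent.AP

open Finset NumberField Pool.Agent.helper3.FT Pool.Agent.helper47.RA Pool.Agent.T5

/-- counting by a covering -/
theorem QCN : QCN_stmt := by
  intro α β ι S R T f B h1 h2
  classical
  have hfin : ∀ i ∈ R, (f i '' T i).Finite := fun i hi => (h1 i hi).1.image _
  have hsub : S ⊆ ⋃ i ∈ R, f i '' T i := by
    intro t ht
    obtain ⟨i, hi, b, hb, rfl⟩ := h2 t ht
    exact Set.mem_biUnion hi ⟨b, hb, rfl⟩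
  have hU : (⋃ i ∈ R, f i '' T i).Finite := Set.Finite.biUnion R.finite_toSet hfin
  refine ⟨hU.subset hsub, ?_⟩
  have h3 : S.ncard ≤ ∑ i ∈ R, (f i '' T i).ncard :=
    le_trans (Set.ncard_le_ncard hsub hU) (Finset.set_ncard_biUnion_le R _)
  calc (S.ncard : ℝ) ≤ ((∑ i ∈ R, (f i '' T i).ncard : ℕ) : ℝ) := by exact_mod_cast h3
    _ = ∑ i ∈ R, ((f i '' T i).ncard : ℝ) := by push_cast; rfl
    _ ≤ ∑ i ∈ R, B i := by
        apply Finset.sum_le_sum
        intro i hi
        refine le_trans ?_ (h1 i hi).2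
        exact_mod_cast Set.ncard_image_le (h1 i hi).1

end Pool.Agent.AP
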