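import Pool.Agent.helper94.AP.Defs

set_option autoImplicit false

/-!
# AP (MP_16912e_nt), block Q: tails and square factors (helper26)

RULES. Row `ap:XXX` is a file `Pool/Agent/<seat>/AP/XXX.lean`: `import Pool.Agent.helper26.AP.SpecQ`,
`set_option autoImplicit false`, `namespace Pool.Agent.AP`,
`open Finset NumberField Pool.Agent.helper3.FT Pool.Agent.helper47.RA Pool.Agent.T5`, and the theorem whose EXACT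
line is in the lock note (other statements only as hypotheses; an unused hypothesis may stay).  Auxiliary
lemmas are prefixed `XXX_`.  No `convert`, `congr!`, `native_decide`, no double quotes.

The two lemmas `QEV`, `QEL` below (proved) are for the choice of `N₀`.
Throughout: `p ≥ 5`, `V_r = VV p N r (Y / r)`.
-/

namespace Pool.Agent.AP

open Finset NumberField Pool.Agent.helper3.FT Pool.Agent.helper47.RA Pool.Agent.T5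

/-- `C N^(-a) ≤ ε` for large `N` -/
theorem QEV (a C ε : ℝ) (ha : 0 < a) (hε : 0 < ε) :
    ∃ N₀ : ℝ, 1 ≤ N₀ ∧ ∀ N : ℝ, N₀ ≤ N → C * N ^ (-a) ≤ ε := by
  have h : Filter.Tendsto (fun N : ℝ => C * N ^ (-a)) Filter.atTop (nhds (C * 0)) :=
    (tendsto_rpow_neg_atTop ha).const_mul C
  rw [mul_zero] at h
  have h2 := (h.eventually (ge_mem_nhds hε)).and (Filter.eventually_ge_atTop (1 : ℝ))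
  obtain ⟨N₀, hN₀⟩ := Filter.eventually_atTop.1 h2
  refine ⟨max 1 N₀, le_max_left _ _, fun N hN => ?_⟩
  exact (hN₀ N (le_trans (le_max_right _ _) hN)).1

/-- `C (1 + log N) N^(-a) ≤ ε` for large `N` -/
theorem QEL (a C ε : ℝ) (ha : 0 < a) (hε : 0 < ε) :
    ∃ N₀ : ℝ, 1 ≤ N₀ ∧ ∀ N : ℝ, N₀ ≤ N → C * (1 + Real.log N) * N ^ (-a) ≤ ε := by
  obtain ⟨N₁, h1, h2⟩ := QEV (a / 2) (|C| * (1 + 2 / a)) ε (by positivity) hε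
  refine ⟨N₁, h1, fun N hN => ?_⟩
  have hN1 : 1 ≤ N := le_trans h1 hN
  have hN0 : 0 < N := by linarith
  have hl : Real.log N ≤ N ^ (a / 2) / (a / 2) := Real.log_le_rpow_div hN0.le (by positivity)
  have hl0 : 0 ≤ Real.log N := Real.log_nonneg hN1
  have hp : 1 ≤ N ^ (a / 2) := Real.one_le_rpow hN1 (by positivity)
  have h3 : 1 + Real.log N ≤ (1 + 2 / a) * N ^ (a / 2) := by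
    have : N ^ (a / 2) / (a / 2) = 2 / a * N ^ (a / 2) := by field_simp
    rw [this] at hl
    nlinarith
  have h4 : N ^ (-a) = N ^ (-(a / 2)) * N ^ (-(a / 2)) := by
    rw [← Real.rpow_add hN0]; congr 1; ring
  have h5 : N ^ (a / 2) * N ^ (-(a / 2)) = 1 := by
    rw [← Real.rpow_add hN0]; simp
  have h6 : 0 < N ^ (-(a / 2)) := Real.rpow_pos_of_pos hN0 _
  calc C * (1 + Real.log N) * N ^ (-a) ≤ |C| * (1 + Real.log N) * N ^ (-a) := by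
        gcongr; exact le_abs_self C
    _ ≤ |C| * ((1 + 2 / a) * N ^ (a / 2)) * N ^ (-a) := by gcongr
    _ = |C| * (1 + 2 / a) * N ^ (-(a / 2)) * (N ^ (a / 2) * N ^ (-(a / 2))) := by rw [h4]; ring
    _ ≤ ε := by rw [h5, mul_one]; exact h2 N hN

/-! ## A. Elementary rows -/

/-- **QCN** (short).  Counting by a covering.
Proof.  `S ⊆ ⋃ i ∈ R, f i '' T i`; induction on `R` or `Set.ncard_le_ncard`, `Finset.set_ncard_biUnion_le` (or the `Finset` version through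
`Set.Finite.toFinset`), `Set.ncard_image_le`. -/
def QCN_stmt : Prop := ∀ (α β ι : Type) (S : Set α) (R : Finset ι) (T : ι → Set β) (f : ι → β → α) (B : ι → ℝ),
  (∀ i ∈ R, (T i).Finite ∧ ((T i).ncard : ℝ) ≤ B i) → (∀ t ∈ S, ∃ i ∈ R, ∃ b ∈ T i, f i b = t) →
  S.Finite ∧ (S.ncard : ℝ) ≤ ∑ i ∈ R, B i

/-- **QSM** (short).  Sums.
Proof.  (1) `1/k² ≤ 1/(k-1) - 1/k` (Mathlib: `sum_Ioc_inv_sq_le_sub`).  (2) first term and (1) with `m = 1`.  (3) `m = ⌊R⌋₊ ≥ 1`, `1/m ≤ 2/R`.  (4) `harmonic_le_one_add_log` or `log (k) - log (k-1) ≥ 1/k`.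
(5) the divisors are a subset of `Ioc 0 (PP w)`; (2).  (6) as in (4) or: every term is `≤ 1`. -/
def QSM_stmt : Prop :=
  (∀ m n : ℕ, 1 ≤ m → ∑ k ∈ Ioc m n, 1 / (k : ℝ) ^ 2 ≤ 1 / (m : ℝ)) ∧
  (∀ n : ℕ, ∑ k ∈ Ioc 0 n, 1 / (k : ℝ) ^ 2 ≤ 2) ∧
  (∀ (R : ℝ) (n : ℕ), 1 ≤ R → ∑ k ∈ Ioc ⌊R⌋₊ n, 1 / (k : ℝ) ^ 2 ≤ 2 / R) ∧
  (∀ R : ℝ, 1 ≤ R → ∑ k ∈ Ioc 0 ⌊R⌋₊, 1 / (k : ℝ) ≤ 1 + Real.log R) ∧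
  (∀ w : ℕ, ∑ r ∈ (PP w).divisors, 1 / (r : ℝ) ^ 2 ≤ 2) ∧
  (∀ (w : ℕ) (R : ℝ), 0 ≤ R → ∑ _q ∈ Ioc w ⌊R⌋₊, (1 : ℝ) ≤ R)

/-- **QA1** (short).  Basic tuples and `MS`, `k = 1`.
Proof.  `r ≥ 1` as `r` is squarefree.  `y² ∣ num`, so `dp y² = num = x² - 4 r z^p`.  `r ∣ dp y² + 4 r z^p = x²`, `r` squarefree: `r ∣ x` (`Squarefree.dvd_pow_iff_dvd`, `Int.squarefree_natCast`).  The fields of `MS`: divide `Y/2 < r z ≤ Y` by `r`;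
multiply `N/2 < -dp ≤ N` by `y²`. -/
def QA1_stmt : Prop := ∀ (p : ℕ) (N Y : ℝ) (r z y : ℕ) (x : ℤ), 5 ≤ p → Bas p N Y (r, z, y, x) →
  1 ≤ r ∧ (r : ℤ) ∣ x ∧ dp p (r, z, y, x) * (y : ℤ) ^ 2 = x ^ 2 - 4 * (r : ℤ) * (z : ℤ) ^ p ∧
    MS p N r r 1 (Y / r) (z, y, x)

/-- **QA2** (short).  `k = q`.
Proof.  As QA1; `(y q)² ∣ dp y² = x² - 4 r z^p`; `y` is prime to `r z`, `q` prime and `q ∤ r z`, so `y q` is prime to `r z`. -/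
def QA2_stmt : Prop := ∀ (p : ℕ) (N Y : ℝ) (r z y q : ℕ) (x : ℤ), 5 ≤ p → Bas p N Y (r, z, y, x) → q.Prime →
  ¬ q ∣ r * z → (q : ℤ) ^ 2 ∣ dp p (r, z, y, x) → MS p N r r q (Y / r) (z, y, x)

/-- **QA3** (short to medium).  `q ∣ z`.
Proof.  `x² = dp y² + 4 r z^p` (QA1), `q ∣ z`, `q² ∣ dp`: `q ∣ x²`, `q ∣ x`.  `z = q z'`, `x = q x'`, `dp = q² d`: `q² (x'² - 4 r q^(p-2) z'^p) = q² d y²`, so `x'² - 4 (r q^(p-2)) z'^p = d y²`.  `r ∣ x = q x'` and `q ∤ r`: `r ∣ x'`.  `y` is prime to `r q z'`.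
`Y/2 < r q z' ≤ Y`; `(N/q²)/2 y² < -d y² ≤ (N/q²) y²`. -/
def QA3_stmt : Prop := ∀ (p : ℕ) (N Y : ℝ) (r z y q : ℕ) (x : ℤ), 5 ≤ p → Bas p N Y (r, z, y, x) → q.Prime →
  ¬ q ∣ r → q ∣ z → (q : ℤ) ^ 2 ∣ dp p (r, z, y, x) → ∃ (z' : ℕ) (x' : ℤ), 1 ≤ z' ∧ z = q * z' ∧ x = q * x' ∧
    MS p (N / (q : ℝ) ^ 2) (r * q ^ (p - 2)) r 1 (Y / ((r : ℝ) * q)) (z', y, x')

/-- **QP1** (short).  `V`.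
Proof.  `4 r (Y/r)^p/N = 4 Y^p/(r^(p-1) N) ≤ 4 Y^p/(r² N)`.  The second: `(r q^(p-2)) (Y/(r q))^p / (N/q²) = r (Y/r)^p/N`. -/
def QP1_stmt : Prop := ∀ (p : ℕ) (N Y : ℝ) (r q : ℕ), 5 ≤ p → 0 < N → 0 < Y → 1 ≤ r → 1 ≤ q →
  VV p N r (Y / r) ≤ 2 * √(Y ^ p / N) / r ∧
  VV p (N / (q : ℝ) ^ 2) (r * q ^ (p - 2)) (Y / ((r : ℝ) * q)) = VV p N r (Y / r)

/-- **QP2** (short to medium; from QP1).  Sizes.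
Proof.  `1 ≤ N^(1/p + δ) ≤ Y ≤ N^(2/p - δ) ≤ N^(2/5)`.  `Y^p ≤ N^(2 - p δ)`, so `√(Y^p/N) ≤ N^(1/2 - p δ/2) ≤ N^(1/2 - 2 δ)`.  For `r ≤ N^(δ/2)`: `Y/r ≥ N^(1/p + δ/2) ≥ N^(δ/2)`, `V_r² = 4 Y^p/(r^(p-1) N) ≥ 4 N^(p δ - (p-1) δ/2) ≥ N^δ`;
`V_r ≤ 2 √(Y^p/N)/r ≤ 2 N^(1/2 - 2 δ)` (QP1). -/
def QP2_stmt : Prop := ∀ (p : ℕ) (δ N Y : ℝ), 5 ≤ p → 0 < δ → 1 ≤ N → N ^ (1 / (p : ℝ) + δ) ≤ Y →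
  Y ≤ N ^ (2 / (p : ℝ) - δ) →
  1 ≤ Y ∧ N ^ (1 / (p : ℝ)) ≤ Y ∧ Y ≤ N ^ ((2 : ℝ) / 5) ∧ √(Y ^ p / N) ≤ N ^ (1 / 2 - 2 * δ) ∧
  ∀ r : ℕ, 1 ≤ r → (r : ℝ) ≤ N ^ (δ / 2) →
    N ^ (1 / (p : ℝ) + δ / 2) ≤ Y / r ∧ N ^ (δ / 2) ≤ Y / r ∧ Y / r ≤ N ∧
    N ^ (δ / 2) ≤ VV p N r (Y / r) ∧ VV p N r (Y / r) ≤ 2 * N ^ (1 / 2 - 2 * δ)

/-- **QSD** (short to medium).  The square factors.
Proof.  `D = dp p t`.  By `Loc`, `D % 4 = 0` or `1`; by `Pool.Agent.helper28.LT.exists_fund` (`import Pool.Agent.helper57.LT.DE`) `D = f² D₀`, `f ≥ 1`, `IsFund D₀`.  `f ≠ 1` as `D` is not fundamental.  Let `q` be a prime factor of `f`; `q² ∣ D`.  `q ≠ 2`: otherwise `D = 4 g² D₀`, `D₀ % 4 = 0` or `1`, so `D % 16 = 0` or `4`,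
contradiction to `Pfund 2 D`.  `q ≤ w` is impossible by `Pfund q D`.  So `w < q`, and `q ∤ r` because the prime factors of `r ∣ PP w` are `≤ w`.  If some such `q` is `≤ R` or divides `z`: first three items.  Otherwise `f` is prime to `r z` and `f ≥ q > R`. -/
def QSD_stmt : Prop := ∀ (p w : ℕ) (t : Q4) (R : ℝ), 2 ≤ w → 1 ≤ t.1 → 1 ≤ t.2.1 → dp p t < 0 → t.1 ∣ PP w → Loc w p t →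
  ¬ IsFund (dp p t) →
  (∃ q : ℕ, q.Prime ∧ w < q ∧ ¬ q ∣ t.1 ∧ (q : ℝ) ≤ R ∧ ¬ q ∣ t.2.1 ∧ (q : ℤ) ^ 2 ∣ dp p t) ∨
  (∃ q : ℕ, q.Prime ∧ w < q ∧ ¬ q ∣ t.1 ∧ (q : ℝ) ≤ R ∧ q ∣ t.2.1 ∧ (q : ℤ) ^ 2 ∣ dp p t) ∨
  (∃ q : ℕ, q.Prime ∧ ¬ q ∣ t.1 ∧ R < q ∧ q ∣ t.2.1 ∧ (q : ℤ) ^ 2 ∣ dp p t) ∨
  (∃ (D₀ : ℤ) (f : ℕ), IsFund D₀ ∧ dp p t = D₀ * (f : ℤ) ^ 2 ∧ R ≤ f ∧ Nat.Coprime f (t.1 * t.2.1))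

/-- **QU2** (short).  Trivial cases.
Proof.  (1) `DN M` is empty: `D ≤ -1` and `-D ≤ M < 1`.  (2) an ideal `a ≠ ⊥` of norm `< 2` has norm 1, so it is `⊤`, principal: `IAp` is empty. -/
def QU2_stmt : Prop := (∀ (p : ℕ) (M Y : ℝ), M < 1 → AA p M Y = 0 ∧ PA M Y = 0) ∧
  (∀ (p : ℕ) (M Y : ℝ), Y < 2 → AA p M Y = 0) ∧ (∀ (p : ℕ) (M Y : ℝ), 0 ≤ AA p M Y ∧ 0 ≤ PA M Y)

/-! ## B. The tail `r > w` -/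

/-- **QT1** (medium; from QCN, QSM, QA1, QP1, QP2).  `w < r ≤ N^c`.
Proof.  MU2 with `η = ε = δ/2`: `c₁, C, N₁`; `c = min c₁ (δ/2)`.  QCN with `R = Ioc w ⌊N^c⌋₊`, `T r = {MS p N r r 1 (Y/r)}` (finite by MU1), `f r (z, y, x) = (r, z, y, x)`, by QA1.  Hypotheses of MU2: QP2 (`2 N^(1/2 - 2δ) ≤ N` for `N ≥ 4`).  By QP1 `(Y/r) V_r ≤ 2 Y √(Y^p/N)/r²`.
Sum: `C Y √N ∑_{r > w} 1/r² + N^(δ/2) 2 Y N^(1/2 - 2 δ) ∑ 1/r² ≤ (C/w + 4 N^(-3δ/2)) Y √N` (QSM). -/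
def QT1_stmt : Prop := ∀ p : ℕ, p.Prime → 5 ≤ p → MU1_stmt p → MU2_stmt p → ∀ δ : ℝ, 0 < δ → ∃ c C : ℝ, 0 < c ∧ 1 ≤ C ∧
  ∀ w : ℕ, 2 ≤ w → ∀ ε : ℝ, 0 < ε → ∃ N₀ : ℝ, ∀ N Y : ℝ, N₀ ≤ N → N ^ (1 / (p : ℝ) + δ) ≤ Y →
  Y ≤ N ^ (2 / (p : ℝ) - δ) →
  ({t : Q4 | Bas p N Y t ∧ w < t.1 ∧ (t.1 : ℝ) ≤ N ^ c}.ncard : ℝ) ≤ (C / w + ε) * (Y * √N)

/-- **QT2** (medium; from QCN, QSM, QA1, QP1, QP2).  `r > N^c`.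
Proof.  MU1 with `ε₁ = min c δ / 4`.  QCN with `R = Ioc ⌊N^c⌋₊ ⌊Y⌋₊` (`r ≤ r z ≤ Y`; then `1 ≤ Y/r`), `T`, `f` as in QT1.  `(N (Y/r) r 1)^ε₁ = (N Y)^ε₁ ≤ N^(2 ε₁)`.  Sum: `C N^(2 ε₁) (Y √N ∑_{r > N^c} 1/r² + 2 Y √(Y^p/N) ∑ 1/r²) ≤ C N^(2 ε₁) (2 N^(-c) Y √N + 4 Y N^(1/2 - 2δ))
≤ C (2 N^(-c/2) + 4 N^(-3δ/2)) Y √N ≤ ε Y √N` for `N` large. -/
def QT2_stmt : Prop := ∀ p : ℕ, p.Prime → 5 ≤ p → MU1_stmt p → ∀ δ c ε : ℝ, 0 < δ → 0 < c → 0 < ε →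
  ∃ N₀ : ℝ, ∀ N Y : ℝ, N₀ ≤ N → N ^ (1 / (p : ℝ) + δ) ≤ Y → Y ≤ N ^ (2 / (p : ℝ) - δ) →
  ({t : Q4 | Bas p N Y t ∧ N ^ c < t.1}.ncard : ℝ) ≤ ε * (Y * √N)

/-- **QTR** (short; from QT1, QT2).  `TR_stmt p`.
Proof.  `{w < r} ⊆ {w < r ≤ N^c} ∪ {N^c < r}`, all sets finite by BF (`N > 0`); `ε/2` in both. -/
def QTR_stmt : Prop := ∀ p : ℕ, p.Prime → 5 ≤ p → BF_stmt → MU1_stmt p → MU2_stmt p → TR_stmt p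

/-! ## C. Square factors -/

/-- **QS1** (medium; from QCN, QSM, QA2, QP1, QP2).  `w < q ≤ N^c`, `q ∤ z`.
Proof.  MU2 with `η = ε = δ/2`: `c₁, C, N₁`; `c = min (δ/4) (1/4)`.  QCN with `R` the pairs `(r, q)`, `r ∈ (PP w).divisors`, `q ∈ Ioc w ⌊N^c⌋₊` prime; `T (r, q) = {MS p N r r q (Y/r)}` (finite by MU1), `f (r, q) (z, y, x) = (r, z, y, x)`, by QA2.  For `N` large `r ≤ PP w ≤ N^c₁`, `PP w ≤ N^(δ/2)`; QP2.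
By QP1 `(Y/r) V_r ≤ 2 Y √(Y^p/N)/r²`.  Sum: `C Y √N ∑_r 1/r² ∑_{q > w} 1/q² + N^(δ/2) N^c 2 Y N^(1/2 - 2δ) ∑_r 1/r² ≤ (2 C/w + 4 N^(-δ)) Y √N`. -/
def QS1_stmt : Prop := ∀ p : ℕ, p.Prime → 5 ≤ p → MU1_stmt p → MU2_stmt p → ∀ δ : ℝ, 0 < δ → ∃ c C : ℝ, 0 < c ∧ 1 ≤ C ∧
  ∀ w : ℕ, 2 ≤ w → ∀ ε : ℝ, 0 < ε → ∃ N₀ : ℝ, ∀ N Y : ℝ, N₀ ≤ N → N ^ (1 / (p : ℝ) + δ) ≤ Y →
  Y ≤ N ^ (2 / (p : ℝ) - δ) →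
  ({t : Q4 | Bas p N Y t ∧ t.1 ∣ PP w ∧
    ∃ q : ℕ, q.Prime ∧ w < q ∧ ¬ q ∣ t.1 ∧ (q : ℝ) ≤ N ^ c ∧ ¬ q ∣ t.2.1 ∧ (q : ℤ) ^ 2 ∣ dp p t}.ncard : ℝ) ≤
    (C / w + ε) * (Y * √N)

/-- **QS2** (medium; from QCN, QSM, QA3, QP1, QP2).  `w < q ≤ N^c`, `q ∣ z`.
Proof.  MU2 with `η = ε = δ/2`: `c₁, C, N₁`; `c = min (δ/4) (min (1/4) (c₁/(2p)))`.  QCN with the same `R`, `T (r, q) = {MS p (N/q²) (r q^(p-2)) r 1 (Y/(r q))}` (finite by MU1), `f (r, q) (z', y, x') = (r, q z', y, q x')`, by QA3.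
MU2 at `(N/q², Y/(r q), r q^(p-2), r, 1)`: `N/q² ≥ N^(1/2) ≥ N₁`; `(N/q²)^(δ/2) ≤ N^(δ/2) ≤ Y/(r q)` (`Y ≥ N^(1/p + δ)`, `r q ≤ PP w N^(δ/4) ≤ N^(δ/2)` for `N` large); `Y/(r q) ≤ N/q²` (`Y ≤ N^(2/5)`, `q ≤ N^(1/4)`); `r q^(p-2) ≤ PP w N^(c₁ (p-2)/(2p)) ≤ N^(c₁/2) ≤ (N/q²)^c₁`;
`VV = V_r` (QP1) `≥ N^(δ/2)` and `≤ 2 N^(1/2 - 2δ) ≤ N^(1/2) ≤ N/q²` (QP2, `N` large).  It gives `C (Y/(r q)) (√N/q)/r + N^(δ/2) (Y/(r q)) V_r ≤ C Y √N/(r² q²) + N^(δ/2) 2 Y √(Y^p/N)/r²`.  Sum: `(2 C/w + 4 N^(-δ)) Y √N`. -/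
def QS2_stmt : Prop := ∀ p : ℕ, p.Prime → 5 ≤ p → MU1_stmt p → MU2_stmt p → ∀ δ : ℝ, 0 < δ → ∃ c C : ℝ, 0 < c ∧ 1 ≤ C ∧
  ∀ w : ℕ, 2 ≤ w → ∀ ε : ℝ, 0 < ε → ∃ N₀ : ℝ, ∀ N Y : ℝ, N₀ ≤ N → N ^ (1 / (p : ℝ) + δ) ≤ Y →
  Y ≤ N ^ (2 / (p : ℝ) - δ) →
  ({t : Q4 | Bas p N Y t ∧ t.1 ∣ PP w ∧
    ∃ q : ℕ, q.Prime ∧ w < q ∧ ¬ q ∣ t.1 ∧ (q : ℝ) ≤ N ^ c ∧ q ∣ t.2.1 ∧ (q : ℤ) ^ 2 ∣ dp p t}.ncard : ℝ) ≤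
    (C / w + ε) * (Y * √N)

/-- **QS3** (medium; from QCN, QSM, QA3, QP1, QP2).  `q > N^c`, `q ∣ z`.
Proof.  MU1 with `ε₁ = min c δ / (4 p)`.  QCN with `R` the pairs `(r, q)`, `r ∈ (PP w).divisors`, `q ∈ Ioc ⌊N^c⌋₊ ⌊Y⌋₊`, `r q ≤ Y`; `T`, `f` as in QS2 (`r q ≤ r q z' ≤ Y`).  `q ≤ Y ≤ N^(2/5)`, so `1 ≤ N/q²`, and `1 ≤ Y/(r q)`.  `((N/q²) (Y/(r q)) (r q^(p-2)) 1)^ε₁ = (N Y q^(p-5))^ε₁ ≤ N^(p ε₁)`.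
MU1: `C N^(p ε₁) (Y √N/(r² q²) + (Y/(r q)) V_r)`, `(Y/(r q)) V_r ≤ 2 Y √(Y^p/N)/(r² q)` (QP1).  Sum over `q > N^c`, `r`: `C N^(p ε₁) (4 N^(-c) Y √N + 4 Y N^(1/2 - 2δ) (1 + log N)) ≤ ε Y √N` for `N` large (QSM, QEL). -/
def QS3_stmt : Prop := ∀ p : ℕ, p.Prime → 5 ≤ p → MU1_stmt p → ∀ δ c ε : ℝ, 0 < δ → 0 < c → 0 < ε → ∀ w : ℕ,
  ∃ N₀ : ℝ, ∀ N Y : ℝ, N₀ ≤ N → N ^ (1 / (p : ℝ) + δ) ≤ Y → Y ≤ N ^ (2 / (p : ℝ) - δ) →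
  ({t : Q4 | Bas p N Y t ∧ t.1 ∣ PP w ∧
    ∃ q : ℕ, q.Prime ∧ ¬ q ∣ t.1 ∧ N ^ c < q ∧ q ∣ t.2.1 ∧ (q : ℤ) ^ 2 ∣ dp p t}.ncard : ℝ) ≤ ε * (Y * √N)

/-- **QS4** (medium; from QU2).  Large conductors prime to `r z`.
Proof.  `c₂` from `UB_stmt p β` at `δ`; `m = min c c₂`; `ε₁ = m/8`: `C_F` from FB with `ε₁`, `C_U` from UB with `ε₁`, `C_P` from PR.  `f₀ = N^c` (`1 ≤ f₀`, `f₀² ≤ N` as `c ≤ 1/2`), `I = ⌊Real.logb 2 N⌋₊ + 1`, so `N < 2^I`, `I ≤ 2 (1 + log N)`.  For `M = N/f₀²/2^i`: if `M < 1` both terms are 0 (QU2).  If `M ≥ 1`: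
`√M ≤ N^(-c) √N`, UB: `AA ≤ C_U N^ε₁ (N^(-c) + N^(-c₂)) Y √N`; PR: `PA ≤ C_P N^(-c) Y √N`.  `(N Y)^ε₁ ≤ N^(2 ε₁)`.  Total `≤ C_F N^(2 ε₁) 2 (1 + log N) (2 C_U + C_P) N^(ε₁ - m) Y √N = C (1 + log N) N^(-5m/8) Y √N` (QEL). -/
def QS4_stmt : Prop := ∀ (p : ℕ) (β : ℝ), p.Prime → 5 ≤ p → UB_stmt p β → PR_stmt → FB_stmt p →
  ∀ δ c ε : ℝ, 0 < δ → 0 < c → c ≤ 1 / 2 → 0 < ε → ∃ N₀ : ℝ, ∀ N Y : ℝ, N₀ ≤ N → 2 ≤ Y → Y ≤ N →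
  Y ≤ N ^ (β - δ) →
  ({t : Q4 | Bas p N Y t ∧ ∃ (D₀ : ℤ) (f : ℕ), IsFund D₀ ∧ dp p t = D₀ * (f : ℤ) ^ 2 ∧ N ^ c ≤ f ∧
      Nat.Coprime f (t.1 * t.2.1)}.ncard : ℝ) ≤ ε * (Y * √N)

/-- **QSQ** (short to medium; from QP2, QSD, QS1, QS2, QS3, QS4).  `SQ_stmt p β`.
Proof.  `β ≤ 2/p`, so `Y ≤ N^(β - δ) ≤ N^(2/p - δ)` (`N ≥ 1`).  `c = min(c from QS1, c from QS2, 1/2)`, `C` the sum of the two constants; `ε/4` in the four rows.  A tuple `t` of the set has `dp p t < 0` (`N/2 < -dp`, `N > 0`), `1 ≤ t.1` (squarefree); QSD with `R = N^c`: it is in the union of the four sets (`N^c ≤ N^(c')` for the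
`c' ≥ c` of QS1, QS2).  All sets are finite by BF; `2 ≤ Y` for `N` large (`Y ≥ N^(1/p)`). -/
def QSQ_stmt : Prop := ∀ (p : ℕ) (β : ℝ), p.Prime → 5 ≤ p → β ≤ 2 / (p : ℝ) → BF_stmt → PR_stmt → FB_stmt p → MU1_stmt p →
  MU2_stmt p → UB_stmt p β → SQ_stmt p β

/-! ## D. Small slices -/

/-- **QU1** (medium; from QCN, QSM, QA1, QP1).  The bound from MU1.
Proof.  By AE, `AA p M Y` is the number of the `t` with `Bas p M Y t ∧ IsFund (dp p t)`.  QCN with `R = Ioc 0 ⌊Y⌋₊`, `T r = {MS p M r r 1 (Y/r)}`, `f r (z, y, x) = (r, z, y, x)`, by QA1.  MU1: `C (M (Y/r) r)^ε ((Y/r) √M/r + (Y/r) V_r) ≤ C (M Y)^ε (Y √M/r² + 2 Y √(Y^p/M)/r²)`.  Sum over `r`: QSM. -/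
def QU1_stmt : Prop := ∀ p : ℕ, p.Prime → 5 ≤ p → AE_stmt p → MU1_stmt p → ∀ ε : ℝ, 0 < ε → ∃ C : ℝ, 1 ≤ C ∧
  ∀ M Y : ℝ, 16 ≤ M → 2 ≤ Y → 8 * Y < M → AA p M Y ≤ C * (M * Y) ^ ε * (Y * √M + Y * √(Y ^ p / M))

/-- **QUB** (medium; from QU1, QU2).  `UB_stmt p (3/(2p))`.
Proof.  `c = min (p δ/8) (1/8)`.  Given `ε`, `ε₁ = ε/2`; `C` = 16 times the sum of the constants of AT and QU1 for `ε₁`.  `Y ≤ N^(3/(2p) - δ) ≤ N^(3/10)`, `N ≥ 1`.  If `Y < 2`: 0 (QU2).  AT: `AA ≤ C Y^ε₁ (M Y)`, `Y^ε₁ ≤ N^ε`.  If `M < 16`: `M Y ≤ 4 Y √M`.  If `M ≤ 8 Y`: `M Y ≤ 8 Y²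
≤ 8 Y N^(3/10) ≤ 8 N^(-c) Y √N`.  If `M < N^(1/2 - 2c)`: `M Y ≤ N^(-2c) Y √N`.  Otherwise QU1: `(M Y)^ε₁ ≤ N^ε` and `Y^p/M ≤ N^(3/2 - p δ - 1/2 + 2c)`, `√(Y^p/M) ≤ N^(1/2 - p δ/2 + c) ≤ N^(1/2 - c)`. -/
def QUB_stmt : Prop := ∀ p : ℕ, p.Prime → 5 ≤ p → AE_stmt p → AT_stmt p → MU1_stmt p → UB_stmt p (3 / (2 * (p : ℝ)))

/-- the assembly of block Q -/
theorem QAL (h1 : QTR_stmt) (h2 : QSQ_stmt) (h3 : QUB_stmt) : Q_stmt := by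
  intro p hp h5 hBF hAE hAT hPR hFB hM1 hM2
  exact ⟨h1 p hp h5 hBF hM1 hM2, h3 p hp h5 hAE hAT hM1,
    fun β hβ hUB => h2 p β hp h5 hβ hBF hPR hFB hM1 hM2 hUB⟩

end Pool.Agent.AP
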